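import Pool.Agent.H92.Room.Hard
import Pool.Agent.H92.Room.InP

/-!
MP_68674a_lc, Q1: the complexity of deciding the existence of a cycle stable matching when all
preference lists have length at most `l`. It is NP-complete for every `l ≥ 3` and in P for
every `l ≤ 2`.
-/

namespace Pool.Agent.Results.MP_68674a_lc.CycleStable

open Pool.Agent.H92.Desc Pool.Agent.H92.Room

theorem result :
    (∀ l : ℕ, 3 ≤ l → NPComplete roomLang_rel (CS l)) ∧ (∀ l : ℕ, l ≤ 2 → InP (CS l)) :=
  ⟨fun l hl => ⟨inNP_CS l, hard_CS l hl⟩, fun l hl => inP_CS l hl⟩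

end Pool.Agent.Results.MP_68674a_lc.CycleStable
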